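import Pool.Agent.H569R2.Tri.Main
import Pool.Agent.H483R2.Tri.Had
import Pool.Agent.H483R2.Tri.Pol
import Pool.Agent.H768R2.Tri.Hot

/-!
# Max-3DM under `L_p` is APX-hard for every `p`: reduction from Max 3DM-B

Definitions: `Pool/Agent/H569R2/Tri/Defs.lean` and `Pool/Agent/NPC/Defs.lean`.  That `lpDist` is the
distance of Mathlib's `L_p` norm is `lpDist_eq_norm` in `Pool/Agent/H569R2/Tri/Sanity.lean`.
-/

namespace Pool.Agent.Results.MP_311ff9_lc.APXHardness

open Pool.Agent.H569R2.Tri
open scoped ENNReal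

/-- For every `p` in `[1, ∞]` and every `B`, maximum `B`-bounded 3-dimensional matching
(Max 3DM-B, `APX`-complete for `B ≥ 3`) is AP-reducible to Max-3DM under `L_p` with the dimension
part of the input; hence the latter is `APX`-hard whenever some Max 3DM-B is, and a PTAS for it
gives one for every Max 3DM-B. -/
theorem result (p : ℝ≥0∞) (hp : 1 ≤ p) (B : ℕ) :
    APReducible (Max3DM B) (MaxTri p) ∧
    ((Max3DM B).APXHard → (MaxTri p).APXHard) ∧
    ((MaxTri p).HasPTAS → (Max3DM B).HasPTAS) := by
  have h := ap_main stmtH stmtI stmtP p hp B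
  exact ⟨h, fun hA => APXHard.of_reducible hA h (max3DM_nonneg B),
    fun hQ => h.ptas (max3DM_nonneg B) hQ⟩

end Pool.Agent.Results.MP_311ff9_lc.APXHardness
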